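import Pool.Agent.TH346.CG.Defs
import Pool.Agent.H367R3.GSForest
import Pool.Agent.TH71.JH.Trees

/-!
GSC-EMB (job 5140, helper475): a forest embeds into a Cayley graph whose generating set contains
sufficiently many independent elements.
-/

set_option autoImplicit false

open Finset
open scoped Pointwise

namespace Pool.Agent.TH475.CG

open Pool.Agent.TH346.CG

theorem emb {m : ℕ} (F : SimpleGraph (Fin m)) (hF : F.IsAcyclic) : ∃ M : ℕ,
    ∀ (Γ : Type) [AddCommGroup Γ] [Fintype Γ] [DecidableEq Γ] (A : Finset Γ), -A = A → 0 ∉ A →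
      IsEmpty (F ↪g SimpleGraph.addCayley (A : Set Γ)) → P M A {0} := by
  obtain ⟨T, hT, ⟨e⟩⟩ := Pool.Agent.H367R3.forest_in_tree F hF
  obtain ⟨f, hf1, hf2⟩ := Pool.Agent.TH71.JH.tree_family 1 m (Fin (m + 1)) T hT
    (Fintype.card_fin _) (Fin m) (by simp)
  refine ⟨m, fun Γ _ _ _ A hA h0 hE a ha => ?_⟩
  by_contra hcon
  push Not at hcon
  obtain ⟨ε, hε⟩ : ∃ ε : Fin (m + 1) → Fin (m + 1) → Fin m → SignType,
      ∀ v w i, ε v w i = if i ∈ f v then (if i ∈ f w then 0 else 1)
        else (if i ∈ f w then -1 else 0) := ⟨_, fun _ _ _ => rfl⟩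
  obtain ⟨φ, hφd⟩ : ∃ φ : Fin (m + 1) → Γ, φ = fun v => ∑ i ∈ f v, a i := ⟨_, rfl⟩
  have hφ : ∀ v w, ∑ i, ((ε v w i : SignType) : ℤ) • a i = φ v - φ w := by
    intro v w
    have h1 : ∀ v, φ v = ∑ i, if i ∈ f v then a i else 0 := by
      intro v
      rw [hφd, Finset.sum_ite_mem, Finset.univ_inter]
    rw [h1, h1, ← Finset.sum_sub_distrib]
    refine Finset.sum_congr rfl fun i _ => ?_
    rw [hε]
    by_cases h2 : i ∈ f v <;> by_cases h3 : i ∈ f w <;> simp [h2, h3]
  have hsupp : ∀ v w i, ε v w i ≠ 0 ↔ i ∈ symmDiff (f v) (f w) := by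
    intro v w i
    rw [hε, Finset.mem_symmDiff]
    by_cases h2 : i ∈ f v <;> by_cases h3 : i ∈ f w <;> simp [h2, h3]
  have hfilt : ∀ v w, (univ.filter (fun i => ε v w i ≠ 0)) = symmDiff (f v) (f w) := by
    intro v w
    ext i
    rw [Finset.mem_filter, hsupp]
    exact ⟨fun h => h.2, fun h => ⟨Finset.mem_univ i, h⟩⟩
  have hneg : ∀ g, g ∈ A → -g ∈ A := by
    intro g hg
    rw [← hA]
    exact Finset.neg_mem_neg hg
  have hadj : ∀ v w, T.Adj v w → φ v - φ w ∈ A := by
    intro v w hvw
    obtain ⟨i, hi⟩ := Finset.card_eq_one.1 (hf1 v w hvw)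
    rw [← hφ]
    have h1 : ∑ i', ((ε v w i' : SignType) : ℤ) • a i' = ((ε v w i : SignType) : ℤ) • a i := by
      apply Finset.sum_eq_single i
      · intro j _ hj
        have h2 : ε v w j = 0 := by
          by_contra h3
          rw [← ne_eq, hsupp, hi, Finset.mem_singleton] at h3
          exact hj h3
        rw [h2]
        simp
      · intro h
        exact absurd (Finset.mem_univ i) h
    rw [h1]
    have h2 : ε v w i ≠ 0 := by
      rw [hsupp, hi]
      exact Finset.mem_singleton_self i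
    have h3 : ε v w i = 1 ∨ ε v w i = -1 := by
      rcases SignType.trichotomy (ε v w i) with h | h | h
      · exact Or.inr h
      · exact absurd h h2
      · exact Or.inl h
    rcases h3 with h3 | h3
    · rw [h3]
      simpa using (ha i).1
    · rw [h3]
      simpa using hneg _ (ha i).1
  have hnadj : ∀ v w, v ≠ w → ¬ T.Adj v w → φ v - φ w ∉ A ∧ φ v - φ w ≠ 0 := by
    intro v w hne hvw
    obtain ⟨r, hr, -, hr2⟩ := hf2 v w hne hvw
    have h1 := hcon (ε v w) (by rw [hfilt, hr2]; omega)
    rw [hφ, Finset.mem_union, Finset.mem_singleton] at h1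
    exact ⟨fun h => h1 (Or.inl h), fun h => h1 (Or.inr h)⟩
  have hinj : Function.Injective φ := by
    intro v w hvw
    by_contra hne
    by_cases h : T.Adj v w
    · have h1 := hadj v w h
      rw [hvw, sub_self] at h1
      exact h0 h1
    · exact (hnadj v w hne h).2 (by rw [hvw, sub_self])
  have hiff : ∀ v w, (SimpleGraph.addCayley (A : Set Γ)).Adj (φ v) (φ w) ↔ T.Adj v w := by
    intro v w
    rw [SimpleGraph.addCayley_adj']
    constructor
    · rintro ⟨h1, g, hg, h2⟩
      have hne : v ≠ w := fun h => h1 (by rw [h])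
      by_contra h
      apply (hnadj v w hne h).1
      have hg' : g ∈ A := hg
      rcases h2 with h2 | h2
      · have h3 : φ v - φ w = -g := by
          rw [← h2]
          abel
        rw [h3]
        exact hneg g hg'
      · have h3 : φ v - φ w = g := by
          rw [h2]
          abel
        rw [h3]
        exact hg'
    · intro h
      refine ⟨fun h1 => h.ne (hinj h1), φ v - φ w, hadj v w h, Or.inr ?_⟩
      abel
  exact hE.false (e.trans ⟨⟨φ, hinj⟩, fun {v w} => hiff v w⟩)

end Pool.Agent.TH475.CG
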